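import Pool.Agent.Helper77.SO.St

/-!
# Project SO (MP_7a9ddc_co), module IQ: the inequality
-/

set_option autoImplicit false

namespace Pool.Agent.Helper60.SO.IQ

open Equiv Equiv.Perm Pool.Agent.Helper35.PM Pool.Agent.Helper77.HY Pool.Agent.Helper77.OF4
  Pool.Agent.Helper77.SO

theorem eN_le {V : Type} [Finite V] (G : SimpleGraph V) (A : Finset V) :
    eN G A ≤ (A.card + 1).choose 2 := by
  classical
  unfold eN
  rw [← Finset.card_sym2, ← Set.ncard_coe_finset]
  apply Set.ncard_le_ncard _ (Set.toFinite _)
  intro e he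
  rw [Finset.mem_coe, Finset.mem_sym2_iff]
  exact he.2

theorem eN_planar (hEub : StEub) (hSub : StSub) (hCnt : StCnt) {V : Type} [Finite V]
    (G : SimpleGraph V) (hP : Planar G) (hT : TF G) (A : Finset V) : eN G A ≤ 2 * A.card := by
  classical
  cases nonempty_fintype V
  rcases Nat.lt_or_ge A.card 3 with h3 | h3
  · have h1 := eN_le G A
    have h2 : (A.card + 1).choose 2 ≤ 2 * A.card := by
      interval_cases A.card <;> decide
    omega
  · have hcA : Fintype.card (A : Set V) = A.card := by
      simp
    have h1 := (hEub (A : Set V) (G.induce (A : Set V))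
      (hSub V (A : Set V) G (G.induce (A : Set V)) Subtype.val hP
        Subtype.val_injective (fun w w' h => h))
      (fun a b c h1 h2 h3 => hT a.1 b.1 c.1 h1 h2 h3)).1 (by omega)
    have h2 := hCnt.2.2.2 V G A
    rw [hcA] at h1
    have h4 : eN (G.induce (A : Set V)) Finset.univ = eN G A := by
      rw [← h2]
    omega

/-- IQ -/
theorem main (hIqc : StIqc) (hEub : Pool.Agent.Helper77.HY.StEub)
    (hSub : Pool.Agent.Helper77.HY.StSub) (hCnt : Pool.Agent.Helper77.HY.StCnt) : StIq := by
  classical
  intro V _ G R W hT hW hQ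
  have hP : Planar G := ⟨R⟩
  have key : ∀ n : ℕ, ∀ S : Finset V, S.card ≤ n → (∀ v ∈ S, v ∉ W) →
      eN G S + {v : V | v ∈ S ∧ ∃ w ∈ W, G.Adj v w}.ncard ≤ 2 * S.card := by
    intro n
    induction n with
    | zero =>
      intro S hS _
      have h0 : S = ∅ := Finset.card_eq_zero.1 (Nat.le_zero.1 hS)
      subst h0
      have h1 := eN_le G ∅
      have h2 : {v : V | v ∈ (∅ : Finset V) ∧ ∃ w ∈ W, G.Adj v w} = ∅ := by
        ext v
        simp
      rw [h2, Set.ncard_empty]
      simpa using h1
    | succ n ih =>
      intro S hS hSW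
      have hN : {v : V | v ∈ S ∧ ∃ w ∈ W, G.Adj v w}.ncard ≤ S.card := by
        rw [← Set.ncard_coe_finset S]
        exact Set.ncard_le_ncard (fun v hv => hv.1) (Set.toFinite _)
      rcases Nat.lt_or_ge S.card 2 with hlt | hge
      · have h1 := eN_le G S
        have h2 : (S.card + 1).choose 2 ≤ S.card := by
          interval_cases S.card <;> decide
        omega
      by_cases hc : (G.induce (S : Set V)).Connected
      · by_cases hex : ∃ v ∈ S, ∃ w ∈ W, G.Adj v w
        · exact hIqc V G R W hW hQ S hSW hc hge hex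
        · have h2 : {v : V | v ∈ S ∧ ∃ w ∈ W, G.Adj v w} = ∅ := by
            apply Set.eq_empty_of_forall_notMem
            intro v hv
            exact hex ⟨v, hv.1, hv.2⟩
          rw [h2, Set.ncard_empty, add_zero]
          exact eN_planar hEub hSub hCnt G hP hT S
      · obtain ⟨v0, hv0⟩ : S.Nonempty := Finset.card_pos.1 (by omega)
        obtain ⟨A, hA⟩ : ∃ A : Finset V, A = S.filter fun v => ∀ h : v ∈ (S : Set V),
          ¬ (G.induce (S : Set V)).Reachable ⟨v0, hv0⟩ ⟨v, h⟩ := ⟨_, rfl⟩
        have hAS : A ⊆ S := by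
          rw [hA]
          exact Finset.filter_subset _ _
        have hne : A.Nonempty := by
          by_contra h
          rw [Finset.not_nonempty_iff_eq_empty] at h
          apply hc
          rw [SimpleGraph.connected_iff_exists_forall_reachable]
          refine ⟨⟨v0, hv0⟩, ?_⟩
          rintro ⟨v, hv⟩
          by_contra h2
          have h3 : v ∈ A := by
            rw [hA, Finset.mem_filter]
            exact ⟨hv, fun _ => h2⟩
          rw [h] at h3
          exact absurd h3 (Finset.notMem_empty v)
        have hv0A : v0 ∉ A := by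
          intro h
          rw [hA, Finset.mem_filter] at h
          exact h.2 hv0 (SimpleGraph.Reachable.refl _)
        have hAdj : ∀ u ∈ S, ∀ v ∈ S, G.Adj u v → v ∈ A → u ∈ A := by
          intro u hu v hv huv hvA
          rw [hA, Finset.mem_filter] at hvA ⊢
          refine ⟨hu, fun h h' => hvA.2 hv (h'.trans ?_)⟩
          apply SimpleGraph.Adj.reachable
          exact huv
        have hcardA : 0 < A.card := Finset.card_pos.2 hne
        have hcardB : 0 < (S \ A).card :=
          Finset.card_pos.2 ⟨v0, Finset.mem_sdiff.2 ⟨hv0, hv0A⟩⟩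
        have hsd : (S \ A).card + A.card = S.card := Finset.card_sdiff_add_card_eq_card hAS
        have hIH := ih (S \ A) (by omega) (fun v hv => hSW v (Finset.mem_sdiff.1 hv).1)
        have hIH2 := ih A (by omega) (fun v hv => hSW v (hAS hv))
        have hN2 : {v : V | v ∈ S ∧ ∃ w ∈ W, G.Adj v w}.ncard ≤
            {v : V | v ∈ A ∧ ∃ w ∈ W, G.Adj v w}.ncard +
            {v : V | v ∈ S \ A ∧ ∃ w ∈ W, G.Adj v w}.ncard := by
          refine le_trans (Set.ncard_le_ncard ?_ (Set.toFinite _)) (Set.ncard_union_le _ _)
          intro v hv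
          by_cases h : v ∈ A
          · left
            exact ⟨h, hv.2⟩
          · right
            exact ⟨Finset.mem_sdiff.2 ⟨hv.1, h⟩, hv.2⟩
        have hE : eN G S ≤ eN G A + eN G (S \ A) := by
          unfold eN
          refine le_trans (Set.ncard_le_ncard ?_ (Set.toFinite _))
            (Set.ncard_union_le {e : Sym2 V | e ∈ G.edgeSet ∧ ∀ v ∈ e, v ∈ A}
              {e : Sym2 V | e ∈ G.edgeSet ∧ ∀ v ∈ e, v ∈ S \ A})
          rintro ⟨a, b⟩ he
          have ha : a ∈ S := he.2 a (Sym2.mem_mk_left a b)
          have hb : b ∈ S := he.2 b (Sym2.mem_mk_right a b)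
          have hab : G.Adj a b := he.1
          by_cases h : a ∈ A
          · left
            refine ⟨he.1, ?_⟩
            intro v hv
            rcases Sym2.mem_iff.1 hv with rfl | rfl
            · exact h
            · exact hAdj _ hb _ ha hab.symm h
          · right
            refine ⟨he.1, ?_⟩
            intro v hv
            rcases Sym2.mem_iff.1 hv with rfl | rfl
            · exact Finset.mem_sdiff.2 ⟨ha, h⟩
            · exact Finset.mem_sdiff.2 ⟨hb, fun h' => h (hAdj _ ha _ hb hab h')⟩
        omega
  intro S hS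
  exact key S.card S le_rfl hS

end Pool.Agent.Helper60.SO.IQ
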